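import Pool.Agent.Lib_helper51.Ecl.Sem

/-!
# Theory of the covering graph: from `NodeOK` of all nodes to `StatementI`. Definitions
-/

set_option autoImplicit false

namespace Pool.Agent.Ecl

open Set

/-- A state as a point of `ℝ⁴`. -/
def toE (x : St) : ℝ × ℝ × ℝ × ℝ := (x.xi, x.eta, x.p, x.q)

/-- A point of `ℝ⁴` as a state. -/
def ofE (v : ℝ × ℝ × ℝ × ℝ) : St := ⟨v.1, v.2.1, v.2.2.1, v.2.2.2⟩

/-- The vector field of the Thiele-Burrau system on `ℝ⁴`. -/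
noncomputable def FE (v : ℝ × ℝ × ℝ × ℝ) : ℝ × ℝ × ℝ × ℝ :=
  (v.2.2.1, v.2.2.2, Fp v.1 v.2.1 v.2.2.2, Fq v.1 v.2.1 v.2.2.1)

/-- the letter of an exit section -/
def exOf : ℕ → Ex
  | 0 => .mid
  | 1 => .rgt
  | _ => .lft

/-- the start state after the arrival on the section `tgt` -/
noncomputable def rotT (tgt : ℕ) (y : St) : St := if tgt = 3 then y else rot (exOf tgt) y

/-- `X, Y` is a curve in the parallelogram of the node `n`, defined on `[a, b]`, which joins the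
edges `u = -1` and `u = 1`. -/
def Cross (n : K.Node) (a b : ℝ) (X Y : ℝ → ℝ) : Prop :=
  a < b ∧ ContinuousOn X (Icc a b) ∧ ContinuousOn Y (Icc a b) ∧
    ∃ u v : ℝ → ℝ, (∀ s ∈ Icc a b, |u s| ≤ 1 ∧ |v s| ≤ 1 ∧
      X s = nX n (u s) (v s) ∧ Y s = nY n (u s) (v s)) ∧
      ((u a = -1 ∧ u b = 1) ∨ (u a = 1 ∧ u b = -1))

/-- Every curve crossing the node contains an arc with itinerary `w` across which the signed miss
changes sign. -/
def GoodN (n : K.Node) (w : List Ex) : Prop :=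
  ∀ (a b : ℝ) (X Y : ℝ → ℝ), Cross n a b X Y → ∃ (a' b' : ℝ) (σ : ℝ → ℝ),
    a ≤ a' ∧ a' < b' ∧ b' ≤ b ∧
    (∀ s ∈ Icc a' b', ∀ x : St, OnSec n.src (n.kap / w60) (X s) (Y s) x → Itin x w (σ s)) ∧
    σ a' * σ b' < 0

/-- the parallelogram `t` is the parallelogram of the node `m` -/
def Match (t : K.Tgt) (m : K.Node) : Prop :=
  t.a = m.a ∧ t.b = m.b ∧ t.Ua = m.Ua ∧ t.Ub = m.Ub ∧ t.Va = m.Va ∧ t.Vb = m.Vb

/-- the node `m` is a successor of the node `n` -/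
def Link (n m : K.Node) : Prop :=
  m.src = n.tgt ∧ (n.tgt = 3 → m.kap = n.kap') ∧ ∃ t ∈ n.succ, Match t m

end Pool.Agent.Ecl
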